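import Pool.Agent.H87.KM7.DEAD
import Pool.Agent.H87.KM7.FIL
import Pool.Agent.H15.KM7.Ops
import Pool.Agent.H15.KMAX.Seed

/-!
# The base case of the tower from the label form of `K'(2)`
-/

set_option autoImplicit false

namespace Pool.KM7

open Finset Real
open Pool.Agent.H49.Ent Pool.Agent.H32.Dense Pool.STK Pool.KA

/-- `DEAD` down to the window `0`. -/
theorem dead_zero (hD : DEADStmt) : ∃ C : ℝ, 0 ≤ C ∧ ∀ (κ : ℝ) (n R : ℕ) (G : Fam 2 n)
    (q : G.Ω → Sec), (∀ ω, 0 < G.p ω → Ok n R (q ω)) →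
    Get κ R (G.trc 0 (Nat.zero_le _)) (Psi κ G q - 3 * (n * Real.log 2) - C) := by
  obtain ⟨C, hC, h⟩ := hD
  refine ⟨C, hC, fun κ n R => ?_⟩
  have key : ∀ m : ℕ, 0 + n = m → ∀ (G : Fam 2 m)
    (q : G.Ω → Sec), (∀ ω, 0 < G.p ω → Ok m R (q ω)) →
    Get κ R (G.trc 0 (Nat.zero_le _)) (Psi κ G q - 3 * (n * Real.log 2) - C) := by
    intro m hm
    subst hm
    intro G q hq
    exact h κ 0 n R G q hq
  exact key n (Nat.zero_add n)

/-- The potential at the window `0` of a copy of the filled family. -/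
theorem get_fll {κ : ℝ} {R L s : ℕ} (G : Fam 2 L) {x : ℝ}
    (h : Get κ R ((fll G s).trc 0 (Nat.zero_le _)) x) :
    Get κ R (G.trc 0 (Nat.zero_le _)) x := by
  classical
  obtain ⟨E, i, p', hp', pr, q, h1, h2, h3⟩ := h
  refine ⟨E, i, p', hp', fun e => (pr e).1, q, ?_, h2, h3.trans (le_of_eq ?_)⟩
  · have h4 : Psh (fll G s).p (fun e => e.1) G.p := by
      intro ω
      unfold law
      change ∑ e : G.Ω × Fin (2 ^ s), (if e.1 = ω then (fll G s).p e else 0) = G.p ω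
      rw [Fintype.sum_prod_type]
      have h5 : ∀ ω' : G.Ω, ∑ f : Fin (2 ^ s), (if (ω', f).1 = ω then (fll G s).p (ω', f) else 0) =
          if ω' = ω then G.p ω' else 0 := by
        intro ω'
        by_cases c : ω' = ω
        · simp only [if_pos c]
          exact Fil.fll_sum G s ω'
        · simp only [if_neg c, Finset.sum_const_zero]
      rw [Finset.sum_congr rfl fun ω' _ => h5 ω', Finset.sum_ite_eq' Finset.univ ω G.p]
      simp
    exact h4.comp h1
  · unfold Psi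
    have e1 : Lab (((fll G s).trc 0 (Nat.zero_le _)).ext p' hp' pr) q =
        Lab ((G.trc 0 (Nat.zero_le _)).ext p' hp' (fun e => (pr e).1)) q := by
      funext e
      have t1 : (((fll G s).trc 0 (Nat.zero_le _)).ext p' hp' pr).T e = 0 := by
        have := (((fll G s).trc 0 (Nat.zero_le _)).ext p' hp' pr).tim e
        simpa using this
      have t2 : ((G.trc 0 (Nat.zero_le _)).ext p' hp' (fun e => (pr e).1)).T e = 0 := by
        have := ((G.trc 0 (Nat.zero_le _)).ext p' hp' (fun e => (pr e).1)).tim e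
        simpa using this
      have x1 : (((fll G s).trc 0 (Nat.zero_le _)).ext p' hp' pr).x e =
          ((G.trc 0 (Nat.zero_le _)).ext p' hp' (fun e => (pr e).1)).x e := by
        funext j
        unfold Fam.x Fam.t
        rw [t1, t2]
        rfl
      unfold Lab
      rw [t1, t2, x1]
      rfl
    rw [e1]
    rfl

/-- The entropy of the time of the filled family. -/
theorem fll_T {L : ℕ} (G : Fam 2 L) (s : ℕ) {κ : Type} (Y : G.Ω → κ) :
    CH (fll G s).p (fll G s).T (fun e => Y e.1) = CH G.p G.T Y + s * Real.log 2 := by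
  have hne : Nonempty (Fin (2 ^ s)) := ⟨⟨0, by positivity⟩⟩
  have hp : (fll G s).p = Pool.KMX.sd G.p (Fin (2 ^ s)) := by
    funext e
    change G.p e.1 / 2 ^ s = G.p e.1 / (Fintype.card (Fin (2 ^ s)) : ℝ)
    rw [Fintype.card_fin]
    push_cast
    rfl
  have hq : ∀ w, 0 ≤ Pool.KMX.sd G.p (Fin (2 ^ s)) w := (Pool.KMX.sd_isLaw G.isLaw).nonneg
  have h0 : CH (fll G s).p (fll G s).T (fun e => Y e.1) = CH (Ω := G.Ω × Fin (2 ^ s))
      (Pool.KMX.sd G.p (Fin (2 ^ s))) (fun e => G.T e.1 * 2 ^ s + e.2) (fun e => Y e.1) := by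
    rw [hp]
    rfl
  have h1 : CH (Pool.KMX.sd G.p (Fin (2 ^ s))) (fun e : G.Ω × Fin (2 ^ s) =>
      G.T e.1 * 2 ^ s + (e.2 : ℕ)) (fun e => Y e.1) =
      CH (Pool.KMX.sd G.p (Fin (2 ^ s))) (fun w => (w.2, G.T w.1)) (fun w => Y w.1) := by
    refine CH_congr hq ?_ ?_ (fun _ _ _ _ h => h) (fun _ _ _ _ h => h)
    · intro w w' _ _ h
      have h2 : G.T w.1 * 2 ^ s + (w.2 : ℕ) = G.T w'.1 * 2 ^ s + (w'.2 : ℕ) :=
        (Prod.ext_iff.mp h).1
      obtain ⟨h3, h4⟩ := Fil.div_mod_eq h2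
      simp only [Prod.mk.injEq]
      exact ⟨h4, h3⟩
    · intro w w' _ _ h
      simp only [Prod.mk.injEq] at h
      change G.T w.1 * 2 ^ s + w.2 = G.T w'.1 * 2 ^ s + w'.2
      rw [h.1.1, h.1.2]
  rw [h0, h1, CH_chain hq]
  have h2 := Pool.KMX.sd_CH_unif (E := Fin (2 ^ s)) G.isLaw (fun ω => (G.T ω, Y ω))
  have h3 := Pool.KMX.sd_CH_fst (E := Fin (2 ^ s)) (p := G.p) G.T Y
  rw [Fintype.card_fin] at h2
  push_cast at h2
  rw [Real.log_pow] at h2
  rw [h2, h3]

/-- **(BASL)** -/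
theorem basl_thm (hL : LBLStmt) : BASLStmt := by
  intro b hb hLK κ hκ hκ1 A
  obtain ⟨C₁, hC₁, hfil⟩ := fil_thm
  obtain ⟨C₂, hC₂, hlbl⟩ := hL b hb
  obtain ⟨C₃, hC₃, hdead⟩ := dead_zero dead_thm
  have hl2 : 0 < Real.log 2 := Real.log_pos (by norm_num)
  have hl1 : Real.log 2 < 0.7 := by
    have := Real.log_two_lt_d9
    linarith
  have hA1 : (0 : ℝ) < 1 + A := by positivity
  obtain ⟨θ, hθ, J₀, hlks⟩ := hLK (κ / (2 * (1 + A))) (by positivity)
  obtain ⟨Λ, hΛ⟩ : ∃ Λ, Λ = max 1 (3 / θ) := ⟨_, rfl⟩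
  have hΛ1 : 1 ≤ Λ := by
    rw [hΛ]
    exact le_max_left _ _
  have hΛθ : 3 ≤ Λ * θ := by
    have h1 : 3 / θ ≤ Λ := by
      rw [hΛ]
      exact le_max_right _ _
    rw [div_le_iff₀ hθ] at h1
    linarith
  obtain ⟨K₁, hK₁⟩ := exists_nat_ge (4 * (C₁ + C₂ + C₃) / κ)
  refine ⟨Λ, by linarith, max (max J₀ K₁) 1, fun K hK => ?_⟩
  have hKJ : J₀ ≤ K := (le_max_left _ _).trans ((le_max_left _ _).trans hK)
  have hKK : K₁ ≤ K := (le_max_right _ _).trans ((le_max_left _ _).trans hK)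
  have hKc : C₁ + C₂ + C₃ ≤ κ / 4 * K := by
    rw [div_le_iff₀ hκ] at hK₁
    have h1 : (K₁ : ℝ) ≤ K := by exact_mod_cast hKK
    have h2 := mul_le_mul_of_nonneg_right h1 hκ.le
    linarith
  have hK0 : (0 : ℝ) ≤ K := Nat.cast_nonneg _
  intro G κ₁ v y _ hu s hs q hq
  have hG0 := G.isLaw.nonneg
  have hKcast : ((K * 1 : ℕ) : ℝ) = K := by push_cast; ring
  -- the cost
  obtain ⟨df, hdf⟩ : ∃ df, df = K * Real.log 2 - CH G.p G.T (fun ω => (G.l ω, G.Z ω)) := ⟨_, rfl⟩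
  have hcst : Λ * df ≤ cst (fun (_ : Unit) (_ : ℕ) => Λ * (K * Real.log 2)) Λ K 1 G v
      (y : ℕ → G.Ω → Unit) := by
    unfold cst
    rw [Finset.sum_range_one]
    have e1 : Ex G.p (fun _ => Λ * (K * Real.log 2)) = Λ * (K * Real.log 2) := by
      unfold Ex
      rw [← Finset.sum_mul, G.isLaw.sum_one, one_mul]
    rw [e1]
    have e2 : CH G.p (fun ω => G.T ω % 2 ^ (K * 1))
        (fun ω => ((v ω, (G.l ω, G.Z ω)), G.T ω / 2 ^ (K * 1))) ≤
        CH G.p G.T (fun ω => (G.l ω, G.Z ω)) := by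
      have e3 : CH G.p (fun ω => G.T ω % 2 ^ (K * 1))
        (fun ω => ((v ω, (G.l ω, G.Z ω)), G.T ω / 2 ^ (K * 1))) ≤
        CH G.p (fun ω => G.T ω % 2 ^ (K * 1)) (fun ω => (G.l ω, G.Z ω)) :=
        CH_mono_cond hG0 fun ω ω' _ _ h => (Prod.ext_iff.mp (Prod.ext_iff.mp h).1).2
      refine e3.trans (CH_mono_left hG0 ?_)
      intro ω ω' _ _ h
      have h4 : G.T ω = G.T ω' := (Prod.ext_iff.mp h).1
      show G.T ω % 2 ^ (K * 1) = G.T ω' % 2 ^ (K * 1)
      rw [h4]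
    have e4 := mul_le_mul_of_nonneg_left e2 (show 0 ≤ Λ by linarith)
    rw [hdf]
    linarith
  -- the potential
  have hPsi : Psi κ G q = K * Real.log 2 + (2 * K + (1 - κ) * s) * Real.log 2 -
      CH G.p (Lab G q) G.Z := by
    unfold Psi
    have e1 : Ex G.p (fun ω => (2 * ((q ω).h : ℝ) + (1 - κ) * (q ω).p) * Real.log 2) =
        (2 * K + (1 - κ) * s) * Real.log 2 := by
      unfold Ex
      have e2 : ∀ ω, G.p ω * ((2 * ((q ω).h : ℝ) + (1 - κ) * (q ω).p) * Real.log 2) =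
          G.p ω * ((2 * K + (1 - κ) * s) * Real.log 2) := by
        intro ω
        rcases (hG0 ω).eq_or_lt with h0 | h0
        · rw [← h0]
          simp
        · obtain ⟨_, h1, h2, _⟩ := hq ω h0
          rw [h1, h2, hKcast]
      rw [Finset.sum_congr rfl fun ω _ => e2 ω, ← Finset.sum_mul, G.isLaw.sum_one, one_mul]
    rw [e1, hKcast]
  have hsle : (s : ℝ) ≤ A * K := by
    have h1 : (s : ℝ) ≤ ((A * (K * 1) : ℕ) : ℝ) := by exact_mod_cast hs
    push_cast at h1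
    linarith
  rw [hKcast]
  rcases le_or_gt df (θ * K) with hcase | hcase
  · -- small deficit
    have hTm : (fll G s).Tm (θ * ((K * 1 + s : ℕ) : ℝ)) := by
      unfold Fam.Tm
      have e1 : CH (fll G s).p (fll G s).T (fun e => ((fll G s).l e, (fll G s).Z e)) =
          CH G.p G.T (fun ω => (G.l ω, G.Z ω)) + s * Real.log 2 :=
        fll_T G s (fun ω => (G.l ω, G.Z ω))
      rw [e1]
      push_cast
      have e2 : 0 ≤ θ * s := by positivity
      rw [hdf] at hcase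
      linarith
    obtain ⟨B, hB⟩ := hlks (K * 1 + s) (by omega) (fll G s) hTm
    have h1 := hfil (K * 1) s G q hq
    have h2 := hlbl κ hκ.le hκ1 (K * 1 + s) (fll G s) B
    have h3 := get_fll G h2
    refine Get.mono ?_ h3
    have e5 : CH G.p G.T (fun ω => (G.l ω, G.Z ω)) ≤ CH G.p G.T G.Z :=
      CH_mono_cond hG0 fun ω ω' _ _ h => (Prod.ext_iff.mp h).2
    have e6 : κ / (2 * (1 + A)) * ((K * 1 + s : ℕ) : ℝ) ≤ κ / 2 * K := by
      have e7 : ((K * 1 + s : ℕ) : ℝ) ≤ (1 + A) * K := by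
        push_cast
        linarith
      refine (mul_le_mul_of_nonneg_left e7 (by positivity)).trans (le_of_eq ?_)
      field_simp
    have e9 : CH G.p G.T (fun ω => (G.l ω, G.Z ω)) ≤ K * Real.log 2 := by
      refine (CH_le_card hG0 G.isLaw.sum_one G.T _ (fun _ => Finset.range (2 ^ (K * 1)))
        (fun ω _ => Finset.mem_range.mpr (G.tim ω))).trans ?_
      rw [Ex_const G.isLaw.sum_one, Finset.card_range]
      push_cast
      rw [Real.log_pow, hKcast]
    have e8 : df ≤ Λ * df := by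
      have e10 : 0 ≤ df := by
        rw [hdf]
        linarith
      exact le_mul_of_one_le_left e10 hΛ1
    have e11 : 0 ≤ κ * (K * (0.7 - Real.log 2)) := by
      have : 0 ≤ 0.7 - Real.log 2 := by linarith
      positivity
    rw [hPsi]
    have e12 : (2 - κ) * (((K * 1 + s : ℕ) : ℝ) * Real.log 2) = 2 * (K * Real.log 2) +
        2 * (s * Real.log 2) - κ * (K * Real.log 2) - κ * (s * Real.log 2) := by
      push_cast
      ring
    rw [e12]
    linarith
  · -- large deficit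
    have h1 := hdead κ (K * 1) (K * 1 + s) G q (fun ω hω => by
      obtain ⟨_, h2, h3, h4⟩ := hq ω hω
      exact ⟨h2.ge, by rw [h2, h3], by rw [h3]; exact h4⟩)
    refine Get.mono ?_ h1
    rw [hKcast]
    have h2 : 3 * K ≤ Λ * df := by
      have h3 : Λ * (θ * K) ≤ Λ * df := mul_le_mul_of_nonneg_left hcase.le (by linarith)
      have h4 : 3 * K ≤ Λ * θ * K := mul_le_mul_of_nonneg_right hΛθ hK0
      linarith
    have h5 : K * Real.log 2 ≤ K * 1 := mul_le_mul_of_nonneg_left (by linarith) hK0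
    have h6 : 0 ≤ κ * K := by positivity
    linarith

end Pool.KM7
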